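import Pool.Agent.N299.DT.Stm

/-!
Project DT (MP_fb67b4_an), task NS: the element `gel T` is not a scalar.
-/

set_option autoImplicit false

open scoped BoundedContinuousFunction Topology
open Filter

noncomputable section

namespace Pool.Agent.N519.DT

open Pool.Agent.N299.DT

section aux

variable {S : Type} [CStarAlgebra S] {n : ℕ}

lemma hp_sa (V : Fin 4 × Fin n → S) (i : Fin n × Bool) : star (hp V i) = hp V i := by
  unfold hp
  split_ifs
  · rw [star_smul, star_add, star_star]
    have : star (1 / 2 : ℂ) = 1 / 2 := by simp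
    rw [this, add_comm]
  · rw [star_smul, star_add, star_star]
    have : star (1 / 2 : ℂ) = 1 / 2 := by simp
    rw [this, add_comm]

lemma hp_x (V : Fin 4 × Fin n → S) (i : Fin n) :
    V (0, i) = hp V (i, true) + Complex.I • hp V (i, false) := by
  unfold hp
  simp only [if_true, Bool.false_eq_true, if_false]
  rw [star_smul, smul_smul, smul_add, smul_add, smul_smul, smul_smul]
  have h1 : Complex.I * (1 / 2) * -Complex.I = 1 / 2 := by
    have := Complex.I_mul_I
    linear_combination (-1 / 2 : ℂ) * this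
  have h2 : Complex.I * (1 / 2) * star (-Complex.I) = -(1 / 2) := by
    have h3 : star (-Complex.I) = Complex.I := by simp
    rw [h3]
    have := Complex.I_mul_I
    linear_combination (1 / 2 : ℂ) * this
  rw [h1, h2]
  module

lemma hp_mem (B : StarSubalgebra ℂ S) (V : Fin 4 × Fin n → S) (h : ∀ g, V g ∈ B)
    (i : Fin n × Bool) : hp V i ∈ B := by
  unfold hp
  split_ifs
  · exact B.smul_mem (add_mem (h _) (star_mem (h _))) _
  · exact B.smul_mem (add_mem (B.smul_mem (h _) _) (star_mem (B.smul_mem (h _) _))) _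

/-- `h(v) = ∑ v_i h_i` -/
def Hm (V : Fin 4 × Fin n → S) : EuclideanSpace ℝ (Fin n × Bool) →ₗ[ℝ] S where
  toFun v := ∑ i, v i • hp V i
  map_add' v w := by
    rw [← Finset.sum_add_distrib]
    refine Finset.sum_congr rfl fun i _ => ?_
    rw [PiLp.add_apply, add_smul]
  map_smul' r v := by
    rw [Finset.smul_sum]
    refine Finset.sum_congr rfl fun i _ => ?_
    rw [PiLp.smul_apply, smul_eq_mul, mul_smul, RingHom.id_apply]

lemma Hm_apply (V : Fin 4 × Fin n → S) (v : EuclideanSpace ℝ (Fin n × Bool)) :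
    Hm V v = ∑ i, v i • hp V i := rfl

lemma Hm_single (V : Fin 4 × Fin n → S) (i : Fin n × Bool) :
    Hm V (EuclideanSpace.single i (1 : ℝ)) = hp V i := by
  rw [Hm_apply, Finset.sum_eq_single i]
  · simp
  · intro j _ hj
    simp [hj]
  · intro h
    exact absurd (Finset.mem_univ i) h

lemma Hm_sa (V : Fin 4 × Fin n → S) (v : EuclideanSpace ℝ (Fin n × Bool)) :
    star (Hm V v) = Hm V v := by
  rw [Hm_apply, star_sum]
  refine Finset.sum_congr rfl fun i _ => ?_
  rw [star_smul, hp_sa]
  simp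

lemma Hm_mem (B : StarSubalgebra ℂ S) (V : Fin 4 × Fin n → S) (h : ∀ g, V g ∈ B)
    (v : EuclideanSpace ℝ (Fin n × Bool)) : Hm V v ∈ B := by
  rw [Hm_apply]
  refine sum_mem fun i _ => ?_
  have : v i • hp V i = ((v i : ℝ) : ℂ) • hp V i := (Complex.coe_smul (v i) (hp V i)).symm
  rw [this]
  exact B.smul_mem (hp_mem B V h i) _

/-- vectors with scalar `h(v)` -/
def Kl (V : Fin 4 × Fin n → S) : Submodule ℝ (EuclideanSpace ℝ (Fin n × Bool)) where
  carrier := {v | ∃ c : ℂ, Hm V v = c • 1}
  add_mem' := by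
    rintro v w ⟨c, hc⟩ ⟨d, hd⟩
    exact ⟨c + d, by rw [map_add, hc, hd, add_smul]⟩
  zero_mem' := ⟨0, by simp⟩
  smul_mem' := by
    rintro r v ⟨c, hc⟩
    refine ⟨(r : ℂ) * c, ?_⟩
    rw [map_smul, hc, mul_smul]
    exact (Complex.coe_smul r _).symm

lemma mem_Kl (V : Fin 4 × Fin n → S) (v : EuclideanSpace ℝ (Fin n × Bool)) :
    v ∈ Kl V ↔ ∃ c : ℂ, Hm V v = c • 1 := Iff.rfl

lemma Kl_ne_top (hS : (1 : S) ≠ 0) (V : Fin 4 × Fin n → S) (hV : Com V) : Kl V ≠ ⊤ := by
  intro h
  have h1 : ∀ i, ∃ c : ℂ, hp V i = c • 1 := by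
    intro i
    have : EuclideanSpace.single i (1 : ℝ) ∈ Kl V := by rw [h]; trivial
    obtain ⟨c, hc⟩ := this
    exact ⟨c, by rw [← hc, Hm_single]⟩
  have h2 : ∀ i, ∃ c : ℂ, V (0, i) = c • 1 := by
    intro i
    obtain ⟨c, hc⟩ := h1 (i, true)
    obtain ⟨d, hd⟩ := h1 (i, false)
    exact ⟨c + Complex.I * d, by rw [hp_x V i, hc, hd, add_smul, mul_smul]⟩
  apply hS
  rw [← hV]
  refine Finset.sum_eq_zero fun i _ => ?_
  obtain ⟨c, hc⟩ := h2 i
  rw [hc, smul_mul_assoc, one_mul, mul_smul_comm, mul_one, sub_self, mul_zero, zero_mul]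

lemma Kl_orth_ne_bot (hS : (1 : S) ≠ 0) (V : Fin 4 × Fin n → S) (hV : Com V) : (Kl V)ᗮ ≠ ⊥ := by
  intro h
  apply Kl_ne_top hS V hV
  exact (Submodule.orthogonal_eq_bot_iff).1 h

/-- linear independence of `1, h(e_1), …` -/
lemma li (hS : (1 : S) ≠ 0) (V : Fin 4 × Fin n → S) (r : ℕ)
    (e : Fin r → EuclideanSpace ℝ (Fin n × Bool)) (he : ∀ a, e a ∈ (Kl V)ᗮ)
    (hli : LinearIndependent ℝ e) :
    LinearIndependent ℂ (Fin.cons (1 : S) (fun a => Hm V (e a)) : Fin (r + 1) → S) := by
  rw [Fintype.linearIndependent_iff]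
  intro c hc
  rw [Fin.sum_univ_succ] at hc
  simp only [Fin.cons_zero, Fin.cons_succ] at hc
  set u := ∑ a : Fin r, (c a.succ).re • e a with hu
  set w := ∑ a : Fin r, (c a.succ).im • e a with hw
  have hdec : ∑ a : Fin r, c a.succ • Hm V (e a) = Hm V u + Complex.I • Hm V w := by
    rw [hu, hw, map_sum, map_sum, Finset.smul_sum, ← Finset.sum_add_distrib]
    refine Finset.sum_congr rfl fun a _ => ?_
    rw [map_smul, map_smul]
    rw [← Complex.coe_smul (c a.succ).re, ← Complex.coe_smul (c a.succ).im, smul_smul, ← add_smul]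
    congr 1
    rw [mul_comm]
    exact (Complex.re_add_im _).symm
  rw [hdec] at hc
  have hst := congrArg star hc
  rw [star_add, star_add, star_smul, star_smul, star_one, star_zero, Hm_sa, Hm_sa] at hst
  have hI : star Complex.I = -Complex.I := by simp
  rw [hI] at hst
  have hu1 : Hm V u = (-(1 / 2) * (c 0 + star (c 0))) • (1 : S) := by
    have h3 : (1 / 2 : ℂ) • ((c 0 • (1 : S) + (Hm V u + Complex.I • Hm V w)) +
      (star (c 0) • (1 : S) + (Hm V u + -Complex.I • Hm V w))) = 0 := by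
      rw [hc, hst]; simp
    have h4 : (1 / 2 : ℂ) • ((c 0 • (1 : S) + (Hm V u + Complex.I • Hm V w)) +
      (star (c 0) • (1 : S) + (Hm V u + -Complex.I • Hm V w))) =
      ((1 / 2) * (c 0 + star (c 0))) • (1 : S) + Hm V u := by module
    rw [h4] at h3
    rw [neg_mul, neg_smul]
    exact eq_neg_of_add_eq_zero_right h3
  have hu0 : u = 0 := by
    have h1 : u ∈ Kl V := ⟨_, hu1⟩
    have h2 : u ∈ (Kl V)ᗮ := Submodule.sum_mem _ fun a _ => Submodule.smul_mem _ _ (he a)
    exact Submodule.disjoint_def.1 (Submodule.orthogonal_disjoint (Kl V)) u h1 h2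
  rw [hu0, map_zero, zero_add] at hc
  have hw0 : w = 0 := by
    have h1 : w ∈ Kl V := by
      refine ⟨Complex.I * c 0, ?_⟩
      have h5 : Complex.I • Hm V w = -(c 0 • (1 : S)) := eq_neg_of_add_eq_zero_right hc
      have h6 : Hm V w = -Complex.I • (Complex.I • Hm V w) := by
        rw [smul_smul]
        have : -Complex.I * Complex.I = 1 := by
          have := Complex.I_mul_I
          linear_combination -this
        rw [this, one_smul]
      rw [h6, h5]
      rw [smul_neg, neg_smul, neg_neg, smul_smul]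
    have h2 : w ∈ (Kl V)ᗮ := Submodule.sum_mem _ fun a _ => Submodule.smul_mem _ _ (he a)
    exact Submodule.disjoint_def.1 (Submodule.orthogonal_disjoint (Kl V)) w h1 h2
  rw [hw0, map_zero, smul_zero, add_zero] at hc
  have hc0 : c 0 = 0 := by
    rcases smul_eq_zero.1 hc with h | h
    · exact h
    · exact absurd h hS
  have hre := Fintype.linearIndependent_iff.1 hli (fun a => (c a.succ).re) hu0
  have him := Fintype.linearIndependent_iff.1 hli (fun a => (c a.succ).im) hw0
  intro i
  refine Fin.cases hc0 (fun a => ?_) i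
  exact Complex.ext (hre a) (him a)

end aux

/-- the sum of the other copies -/
def So {S : Type} [CStarAlgebra S] {n : ℕ} (T : ℕ → Fin 4 × Fin n → S) (l : Fin (2 * n + 1))
    (i : Fin n × Bool) : S := ∑ q ∈ Finset.univ.erase l, hp (T q) i

/-- the rest of `gel` -/
def Rest {S : Type} [CStarAlgebra S] {n : ℕ} (T : ℕ → Fin 4 × Fin n → S) (l : Fin (2 * n + 1)) :
    S :=
  ∑ p ∈ Finset.univ.erase l, ∑ q ∈ Finset.univ.erase l,
    if p = q then 0 else ∑ i, hp (T p) i * hp (T q) i

lemma gel_split {S : Type} [CStarAlgebra S] {n : ℕ} (T : ℕ → Fin 4 × Fin n → S)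
    (l : Fin (2 * n + 1))
    (hcom : ∀ q : Fin (2 * n + 1), q ≠ l → ∀ i, hp (T q) i * hp (T l) i =
      hp (T l) i * hp (T q) i) :
    gel T = (2 : ℂ) • (∑ i, hp (T l) i * So T l i) + Rest T l := by
  have h1 : ∀ p : Fin (2 * n + 1), (∑ q : Fin (2 * n + 1),
      if p = q then 0 else ∑ i, hp (T p) i * hp (T q) i) =
      (if p = l then 0 else ∑ i, hp (T p) i * hp (T l) i) +
      ∑ q ∈ Finset.univ.erase l, if p = q then 0 else ∑ i, hp (T p) i * hp (T q) i := by
    intro p
    exact (Finset.add_sum_erase Finset.univ (fun q : Fin (2 * n + 1) =>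
      if p = q then (0 : S) else ∑ i, hp (T p) i * hp (T q) i) (Finset.mem_univ l)).symm
  unfold gel
  rw [Finset.sum_congr rfl fun p _ => h1 p, Finset.sum_add_distrib]
  rw [← Finset.add_sum_erase Finset.univ (fun p : Fin (2 * n + 1) =>
    if p = l then 0 else ∑ i, hp (T p) i * hp (T l) i) (Finset.mem_univ l)]
  rw [← Finset.add_sum_erase Finset.univ (fun p : Fin (2 * n + 1) =>
    ∑ q ∈ Finset.univ.erase l, if p = q then 0 else ∑ i, hp (T p) i * hp (T q) i)
    (Finset.mem_univ l)]
  have hA : (∑ p ∈ Finset.univ.erase l, if p = l then (0 : S) else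
      ∑ i, hp (T p) i * hp (T l) i) = ∑ i, hp (T l) i * So T l i := by
    unfold So
    simp only [Finset.mul_sum]
    rw [Finset.sum_comm]
    refine Finset.sum_congr rfl fun p hp' => ?_
    have hne := Finset.ne_of_mem_erase hp'
    rw [if_neg hne]
    exact Finset.sum_congr rfl fun i _ => hcom p hne i
  have hB : (∑ q ∈ Finset.univ.erase l, if l = q then (0 : S) else
      ∑ i, hp (T l) i * hp (T q) i) = ∑ i, hp (T l) i * So T l i := by
    unfold So
    simp only [Finset.mul_sum]
    rw [Finset.sum_comm]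
    refine Finset.sum_congr rfl fun p hp' => ?_
    have hne := Finset.ne_of_mem_erase hp'
    rw [if_neg (Ne.symm hne)]
  simp only [if_true, zero_add]
  rw [hA, hB, two_smul]
  unfold Rest
  abel

lemma gel_sa {S : Type} [CStarAlgebra S] {n : ℕ} (T : ℕ → Fin 4 × Fin n → S) :
    star (gel T) = gel T := by
  unfold gel
  rw [star_sum]
  simp only [star_sum]
  rw [Finset.sum_comm]
  refine Finset.sum_congr rfl fun p _ => Finset.sum_congr rfl fun q _ => ?_
  by_cases h : q = p
  · rw [if_pos h, if_pos h.symm, star_zero]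
  · rw [if_neg h, if_neg (Ne.symm h), star_sum]
    refine Finset.sum_congr rfl fun i _ => ?_
    rw [star_mul, hp_sa, hp_sa]

/-- the sum of the `h^{(q)}(v)` over the other copies -/
lemma sum_So {S : Type} [CStarAlgebra S] {n : ℕ} (T : ℕ → Fin 4 × Fin n → S)
    (l : Fin (2 * n + 1)) (v : EuclideanSpace ℝ (Fin n × Bool)) :
    ∑ i, v i • So T l i = ∑ q ∈ Finset.univ.erase l, Hm (T q) v := by
  unfold So
  simp only [Hm_apply, Finset.smul_sum]
  rw [Finset.sum_comm]

theorem key (hAL : S_AL) (hLI : S_LI) (n : ℕ) (S : Type) [CStarAlgebra S] (hS : Sim S)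
    (T : ℕ → Fin 4 × Fin n → S) (hCS : CS T) (htop : Al T Set.univ = ⊤) (c : ℂ)
    (hc : gel T = c • 1) (l : Fin (2 * n + 1)) (v : EuclideanSpace ℝ (Fin n × Bool))
    (hv : v ∈ (Kl (T l))ᗮ) : ∑ q ∈ Finset.univ.erase l, Hm (T q) v = 0 := by
  obtain ⟨-, hmono, hgen, -, hcomm, -⟩ := hAL S (Fin 4 × Fin n) T
  obtain ⟨hdis, hpair⟩ := hcomm hCS
  have hP := hpair htop {(l : ℕ)}
  set B := Al T {(l : ℕ)} with hB
  set B' := Al T {(l : ℕ)}ᶜ with hB'
  have hinB : ∀ g, T l g ∈ B := fun g => hgen _ _ g rfl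
  have hinB' : ∀ q : Fin (2 * n + 1), q ≠ l → ∀ g, T q g ∈ B' := by
    intro q hq g
    refine hgen _ _ g ?_
    intro h
    exact hq (Fin.ext h)
  have hSo : ∀ i, So T l i ∈ B' := by
    intro i
    refine sum_mem fun q hq => ?_
    exact hp_mem B' _ (hinB' q (Finset.ne_of_mem_erase hq)) i
  have hRest : Rest T l ∈ B' := by
    refine sum_mem fun p hp' => sum_mem fun q hq => ?_
    split_ifs
    · exact zero_mem _
    · refine sum_mem fun i _ => mul_mem ?_ ?_
      · exact hp_mem B' _ (hinB' p (Finset.ne_of_mem_erase hp')) i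
      · exact hp_mem B' _ (hinB' q (Finset.ne_of_mem_erase hq)) i
  have hsplit := gel_split T l (fun q hq i =>
    (hP.1 _ (hp_mem B _ hinB i) _ (hp_mem B' _ (hinB' q hq) i)).symm)
  -- orthonormal basis of the orthogonal complement
  set R := (Kl (T l))ᗮ with hR
  set b := stdOrthonormalBasis ℝ R with hb
  set r := Module.finrank ℝ R with hr
  set e : Fin r → EuclideanSpace ℝ (Fin n × Bool) := fun a => ((b a : R) : _) with he
  have hli0 : LinearIndependent ℝ e := by
    have h1 : LinearIndependent ℝ b := b.orthonormal.linearIndependent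
    exact h1.map' R.subtype (Submodule.ker_subtype R)
  have hlin := li hS.1 (T l) r e (fun a => (b a).2) hli0
  -- decomposition of the standard basis vectors
  have hdec : ∀ i, ∃ d : ℂ, hp (T l) i = ∑ a, (e a i) • Hm (T l) (e a) + d • 1 := by
    intro i
    set z := EuclideanSpace.single i (1 : ℝ) with hz
    have h1 : z - ∑ a, (inner ℝ (e a) z : ℝ) • e a ∈ Kl (T l) := by
      rw [← Submodule.orthogonal_orthogonal (Kl (T l)), ← hR]
      have h2 : ∑ a, (inner ℝ (e a) z : ℝ) • e a = (R.orthogonalProjectionOnto z : R) := by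
        have h3 := b.sum_repr (R.orthogonalProjectionOnto z)
        rw [← h3]
        simp only [Submodule.coe_sum, Submodule.coe_smul]
        refine Finset.sum_congr rfl fun a _ => ?_
        congr 1
        rw [b.repr_apply_apply]
        exact (Submodule.inner_orthogonalProjectionOnto_eq_of_mem_left (b a) z).symm
      rw [h2]
      exact Submodule.sub_starProjection_mem_orthogonal z
    obtain ⟨d, hd⟩ := h1
    refine ⟨d, ?_⟩
    rw [← hd, map_sub, map_sum, hz, Hm_single]
    have h4 : ∀ a, (inner ℝ (e a) (EuclideanSpace.single i (1 : ℝ)) : ℝ) = e a i := by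
      intro a
      rw [EuclideanSpace.inner_single_right]
      simp
    simp only [h4, map_smul]
    abel
  choose d hd using hdec
  have hsum : ∑ i, hp (T l) i * So T l i =
      ∑ a, Hm (T l) (e a) * (∑ i, e a i • So T l i) + ∑ i, d i • So T l i := by
    have h1 : ∀ i, hp (T l) i * So T l i = ∑ a, Hm (T l) (e a) * (e a i • So T l i) +
        d i • So T l i := by
      intro i
      rw [hd i, add_mul, Finset.sum_mul]
      congr 1
      · refine Finset.sum_congr rfl fun a _ => ?_
        rw [smul_mul_assoc, mul_smul_comm]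
      · rw [smul_mul_assoc, one_mul]
    rw [Finset.sum_congr rfl fun i _ => h1 i, Finset.sum_add_distrib, Finset.sum_comm]
    simp only [Finset.mul_sum]
  set y0 : S := (2 : ℂ) • (∑ i, d i • So T l i) + Rest T l - c • 1 with hy0
  have hy0m : y0 ∈ B' := by
    refine sub_mem (add_mem (B'.smul_mem (sum_mem fun i _ => B'.smul_mem (hSo i) _) _) hRest) ?_
    exact B'.smul_mem (one_mem _) _
  have hym : ∀ a, (2 : ℂ) • (∑ i, e a i • So T l i) ∈ B' := by
    intro a
    refine B'.smul_mem (sum_mem fun i _ => ?_) _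
    rw [← Complex.coe_smul (e a i)]
    exact B'.smul_mem (hSo i) _
  have hzero : ∑ j, (Fin.cons (1 : S) (fun a => Hm (T l) (e a)) : Fin (r + 1) → S) j *
      (Fin.cons y0 (fun a => (2 : ℂ) • (∑ i, e a i • So T l i)) : Fin (r + 1) → S) j = 0 := by
    rw [Fin.sum_univ_succ]
    simp only [Fin.cons_zero, Fin.cons_succ, one_mul]
    have h1 : gel T - c • 1 = 0 := by rw [hc, sub_self]
    rw [hsplit, hsum] at h1
    rw [← h1, hy0]
    simp only [mul_smul_comm, ← Finset.smul_sum]
    module
  have hfin := hLI S hS B B' hP (r + 1) _ _ (by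
    intro j
    refine Fin.cases ?_ (fun a => ?_) j
    · simp only [Fin.cons_zero]
      exact one_mem _
    · simp only [Fin.cons_succ]
      exact Hm_mem B _ hinB _) (by
    intro j
    refine Fin.cases ?_ (fun a => ?_) j
    · simp only [Fin.cons_zero]
      exact hy0m
    · simp only [Fin.cons_succ]
      exact hym a) hlin hzero
  have hea : ∀ a, ∑ q ∈ Finset.univ.erase l, Hm (T q) (e a) = 0 := by
    intro a
    have h1 := hfin a.succ
    simp only [Fin.cons_succ] at h1
    rw [sum_So] at h1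
    rcases smul_eq_zero.1 h1 with h | h
    · exact absurd h two_ne_zero
    · exact h
  have hvdec : v = ∑ a, b.repr ⟨v, hv⟩ a • e a := by
    have h3 := b.sum_repr ⟨v, hv⟩
    have h4 := congrArg (fun z : R => (z : EuclideanSpace ℝ (Fin n × Bool))) h3
    simp only [Submodule.coe_sum, Submodule.coe_smul] at h4
    exact h4.symm
  rw [hvdec]
  simp only [map_sum, map_smul]
  rw [Finset.sum_comm]
  refine Finset.sum_eq_zero fun a _ => ?_
  rw [← Finset.smul_sum, hea a, smul_zero]

theorem le_Kl (hAL : S_AL) (hCEN : S_CEN) (hLI : S_LI) (n : ℕ) (S : Type) [CStarAlgebra S]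
    (hS : Sim S) (T : ℕ → Fin 4 × Fin n → S) (hCS : CS T) (htop : Al T Set.univ = ⊤) (c : ℂ)
    (hc : gel T = c • 1) (l l' : Fin (2 * n + 1)) (hll : l' ≠ l)
    (v : EuclideanSpace ℝ (Fin n × Bool)) (hv : v ∈ (Kl (T l))ᗮ) : v ∈ Kl (T l') := by
  have h0 := key hAL hLI n S hS T hCS htop c hc l v hv
  obtain ⟨-, hmono, hgen, -, hcomm, -⟩ := hAL S (Fin 4 × Fin n) T
  obtain ⟨hdis, hpair⟩ := hcomm hCS
  have hP := hpair htop {(l' : ℕ)}
  set B := Al T {(l' : ℕ)} with hB
  set B' := Al T {(l' : ℕ)}ᶜ with hB'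
  have hinB : ∀ g, T l' g ∈ B := fun g => hgen _ _ g rfl
  have hinB' : ∀ q : Fin (2 * n + 1), q ≠ l' → ∀ g, T q g ∈ B' := by
    intro q hq g
    refine hgen _ _ g ?_
    intro h
    exact hq (Fin.ext h)
  have h1 : Hm (T l') v ∈ B := Hm_mem B _ hinB v
  have h2 : Hm (T l') v ∈ B' := by
    have h3 : l' ∈ Finset.univ.erase l := Finset.mem_erase.2 ⟨hll, Finset.mem_univ _⟩
    rw [← Finset.add_sum_erase _ _ h3] at h0
    rw [eq_neg_of_add_eq_zero_left h0]
    refine neg_mem (sum_mem fun q hq => ?_)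
    exact Hm_mem B' _ (hinB' q (Finset.ne_of_mem_erase hq)) v
  set z := Hm (T l') v with hz
  have hzs : star z = z := Hm_sa _ _
  have hcl : (⊤ : StarSubalgebra ℂ S) ≤ StarSubalgebra.centralizer ℂ {z} := by
    rw [← hP.2]
    refine StarSubalgebra.topologicalClosure_minimal ?_ ?_
    · refine sup_le ?_ ?_
      · intro y hy
        rw [StarSubalgebra.mem_centralizer_iff]
        intro g hg
        rw [Set.mem_singleton_iff.1 hg, hzs]
        have := hP.1 y hy z h2
        exact ⟨this.symm, this.symm⟩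
      · intro y hy
        rw [StarSubalgebra.mem_centralizer_iff]
        intro g hg
        rw [Set.mem_singleton_iff.1 hg, hzs]
        have := hP.1 z h1 y hy
        exact ⟨this, this⟩
    · exact Set.isClosed_centralizer _
  refine hCEN S hS z fun y => ?_
  have := hcl (show y ∈ (⊤ : StarSubalgebra ℂ S) from trivial)
  rw [StarSubalgebra.mem_centralizer_iff] at this
  exact (this z rfl).1

theorem t_NS (hAL : S_AL) (hCEN : S_CEN) (hLI : S_LI) : S_NS := by
  intro n S _ hS T hCS hCom htop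
  refine ⟨gel_sa T, fun c hc => ?_⟩
  have h1 : ∀ l : Fin (2 * n + 1), ∃ v ∈ (Kl (T l))ᗮ, v ≠ 0 := fun l =>
    Submodule.exists_mem_ne_zero_of_ne_bot (Kl_orth_ne_bot hS.1 (T l) (hCom l))
  choose v hv hv0 using h1
  have horth : Pairwise fun l l' => inner ℝ (v l) (v l') = 0 := by
    intro l l' hll
    have h2 := le_Kl hAL hCEN hLI n S hS T hCS htop c hc l l' (Ne.symm hll) (v l) (hv l)
    exact (Submodule.mem_orthogonal _ _).1 (hv l') (v l) h2
  have hli := linearIndependent_of_ne_zero_of_inner_eq_zero hv0 horth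
  have hcard := hli.fintype_card_le_finrank
  rw [finrank_euclideanSpace, Fintype.card_prod, Fintype.card_fin, Fintype.card_fin,
    Fintype.card_bool] at hcard
  omega

end Pool.Agent.N519.DT
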